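import Pool.Agent.Helper8.DP2.Defs
import Pool.Agent.Helper1.DP2.NormBasic
import Pool.Agent.Helper1.DP2.Norm2

set_option autoImplicit false

/-!
DQ-T: the real place.
-/

namespace Pool.Agent.Helper8.DP2

open Quaternion

theorem real_pos {m n d : ℤ} (hm : m ≠ 0) (hd : 0 < d) :
    (∀ (P : Pt m n d ℝ) (T : Finset (Fin 7)), inv P T = 0) ∧ Nonempty (Pt m n d ℝ) := by
  refine sq_place hm hd.ne' ?_
  have h : (0 : ℝ) ≤ (d : ℝ) := by exact_mod_cast hd.le
  exact ⟨Real.sqrt d, (Real.mul_self_sqrt h).symm⟩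

namespace RealPl

/-- the sign as an element of `ZMod 2` -/
noncomputable def sg (t : ℝ) : ZMod 2 := if t < 0 then 1 else 0

theorem sg_pos {t : ℝ} (h : 0 < t) : sg t = 0 := by
  unfold sg
  rw [if_neg (not_lt.mpr h.le)]

theorem sg_neg {t : ℝ} (h : t < 0) : sg t = 1 := by
  unfold sg
  rw [if_pos h]

theorem sg_mul {a b : ℝ} (ha : a ≠ 0) (hb : b ≠ 0) : sg (a * b) = sg a + sg b := by
  rcases lt_or_gt_of_ne ha with h | h <;> rcases lt_or_gt_of_ne hb with h' | h'
  · rw [sg_pos (mul_pos_of_neg_of_neg h h'), sg_neg h, sg_neg h']; decide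
  · rw [sg_neg (mul_neg_of_neg_of_pos h h'), sg_neg h, sg_pos h']; decide
  · rw [sg_neg (mul_neg_of_pos_of_neg h h'), sg_pos h, sg_neg h']; decide
  · rw [sg_pos (mul_pos h h'), sg_pos h, sg_pos h']; decide

theorem sg_prod (T : Finset (Fin 7)) (f : Fin 7 → ℝ) (hf : ∀ i, f i ≠ 0) :
    sg (∏ i ∈ T, f i) = ∑ i ∈ T, sg (f i) := by
  classical
  induction T using Finset.induction_on with
  | empty => simp [sg_pos]
  | insert a S ha ih =>
    rw [Finset.prod_insert ha, Finset.sum_insert ha, ← ih,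
      sg_mul (hf a) (Finset.prod_ne_zero_iff.mpr (fun i _ => hf i))]

theorem inv_eq_sg {m n d : ℤ} (hd : d < 0) (P : Pt m n d ℝ) (T : Finset (Fin 7)) :
    inv P T = ∑ i ∈ T, sg (ent P i) := by
  have hd' : (d : ℝ) < 0 := by exact_mod_cast hd
  have hne := fun i => ent_ne_zero hd'.ne P i
  rw [← sg_prod T (ent P) hne]
  have hp : (∏ i ∈ T, ent P i) ≠ 0 := Finset.prod_ne_zero_iff.mpr (fun i _ => hne i)
  have hiff := inv_eq_zero_iff (two_ne_zero) hd'.ne P T
  rcases lt_or_gt_of_ne hp with h | h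
  · rw [sg_neg h]
    have h1 : inv P T ≠ 0 := by
      intro h0
      obtain ⟨u, v, huv⟩ := hiff.mp h0
      have : 0 ≤ u ^ 2 - (d : ℝ) * v ^ 2 := by
        have := mul_nonneg_of_nonpos_of_nonpos hd'.le (neg_nonpos.mpr (sq_nonneg v))
        nlinarith [sq_nonneg u]
      linarith
    unfold inv at h1 ⊢
    split_ifs at h1 ⊢ with h2
    · exact absurd rfl h1
    · rfl
  · rw [sg_pos h]
    refine hiff.mpr ⟨Real.sqrt (∏ i ∈ T, ent P i), 0, ?_⟩
    rw [Real.sq_sqrt h.le]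
    ring

/-- the sign of an entry -/
theorem sg_ent {m n d : ℤ} (hd : d < 0) (P : Pt m n d ℝ) (i : Fin 7) (t : ℝ) (ht : t ≠ 0)
    (h1 : 0 ≤ lin m n P.x P.y P.z i * t)
    (h2 : lin m n P.x P.y P.z i = 0 → com m n P.x P.y P.z i * t < 0) :
    sg (ent P i) = sg t := by
  have hd' : (d : ℝ) < 0 := by exact_mod_cast hd
  have key : ∀ s : ℝ, 0 < s * t → sg s = sg t := by
    intro s hs
    rcases lt_or_gt_of_ne ht with h | h
    · have : s < 0 := by
        by_contra hcon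
        push Not at hcon
        nlinarith [mul_nonpos_of_nonneg_of_nonpos hcon h.le]
      rw [sg_neg this, sg_neg h]
    · have : 0 < s := by
        by_contra hcon
        push Not at hcon
        nlinarith [mul_nonpos_of_nonpos_of_nonneg hcon h.le]
      rw [sg_pos this, sg_pos h]
  unfold ent
  split_ifs with a b
  · refine key _ (lt_of_le_of_ne h1 (Ne.symm (mul_ne_zero a ht)))
  · push Not at a
    refine key _ ?_
    have := h2 a
    nlinarith [mul_pos_of_neg_of_neg hd' this]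
  · push Not at a b
    have := h2 a
    rw [b, zero_mul] at this
    exact absurd this (lt_irrefl _)

theorem two_abs {M N x y : ℝ} (hN : 0 < N) (hM : N < M)
    (h : (M ^ 2 * x ^ 2 - N ^ 2 * y ^ 2) * (N ^ 2 * x ^ 2 - M ^ 2 * y ^ 2) ≤ 0) :
    N * |y| ≤ M * |x| ∧ N * |x| ≤ M * |y| := by
  have hM0 : 0 < M := hN.trans hM
  have hMN : 0 < M ^ 2 - N ^ 2 := by nlinarith
  set a := M ^ 2 * x ^ 2 - N ^ 2 * y ^ 2 with ha
  set b := N ^ 2 * x ^ 2 - M ^ 2 * y ^ 2 with hb
  have hab : b ≤ a := by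
    have h1 : a - b = (M ^ 2 - N ^ 2) * (x ^ 2 + y ^ 2) := by rw [ha, hb]; ring
    have h2 : 0 ≤ (M ^ 2 - N ^ 2) * (x ^ 2 + y ^ 2) := by positivity
    linarith
  have ha0 : 0 ≤ a := by
    by_contra hcon
    push Not at hcon
    have := mul_pos_of_neg_of_neg hcon (lt_of_le_of_lt hab hcon)
    linarith
  have hb0 : b ≤ 0 := by
    by_contra hcon
    push Not at hcon
    have := mul_pos (lt_of_lt_of_le hcon hab) hcon
    linarith
  constructor
  · have h1 : (N * |y|) ^ 2 ≤ (M * |x|) ^ 2 := by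
      rw [mul_pow, mul_pow, sq_abs, sq_abs]; linarith
    exact (pow_le_pow_iff_left₀ (by positivity) (by positivity) two_ne_zero).mp h1
  · have h1 : (N * |x|) ^ 2 ≤ (M * |y|) ^ 2 := by
      rw [mul_pow, mul_pow, sq_abs, sq_abs]; linarith
    exact (pow_le_pow_iff_left₀ (by positivity) (by positivity) two_ne_zero).mp h1

theorem lin_zero_sign {M N x y : ℝ} (hN : 0 ≤ N) (h : N * |y| ≤ M * |x|) :
    0 ≤ (M * x - N * y) * x := by
  have h1 : y * x ≤ |y| * |x| := by rw [← abs_mul]; exact le_abs_self _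
  have h2 : N * (y * x) ≤ N * (|y| * |x|) := mul_le_mul_of_nonneg_left h1 hN
  have h3 : (N * |y|) * |x| ≤ (M * |x|) * |x| := mul_le_mul_of_nonneg_right h (abs_nonneg x)
  have h4 : |x| * |x| = x * x := abs_mul_abs_self x
  have h5 : (M * |x|) * |x| = M * (x * x) := by rw [mul_assoc, h4]
  have h6 : (N * |y|) * |x| = N * (|y| * |x|) := by ring
  have h7 : (M * x - N * y) * x = M * (x * x) - N * (y * x) := by ring
  rw [h7]
  linarith

theorem lin_one_sign {M N x y : ℝ} (hN : 0 ≤ N) (h : N * |x| ≤ M * |y|) :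
    0 ≤ (N * x + M * y) * y := by
  have := lin_zero_sign (x := y) (y := -x) hN (by rwa [abs_neg])
  nlinarith

theorem com_zero_sign {M N x y κ : ℝ} (hN : 0 < N) (hM : N < M) (hκ : 0 < κ) (hx : x ≠ 0)
    (h : M * x - N * y = 0) :
    4 * κ * ((M * x + N * y) * (N * x - M * y) * (N * x + M * y)) * x < 0 := by
  have hM0 : 0 < M := hN.trans hM
  have e1 : N * y = M * x := by linarith
  have hx2 : 0 < x ^ 2 := by positivity
  have h1 : N ^ 2 * (N ^ 2 * x ^ 2 - M ^ 2 * y ^ 2) = -((M ^ 4 - N ^ 4) * x ^ 2) := by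
    have : N ^ 2 * y ^ 2 = M ^ 2 * x ^ 2 := by
      rw [← mul_pow, e1, mul_pow]
    calc N ^ 2 * (N ^ 2 * x ^ 2 - M ^ 2 * y ^ 2)
        = N ^ 4 * x ^ 2 - M ^ 2 * (N ^ 2 * y ^ 2) := by ring
      _ = N ^ 4 * x ^ 2 - M ^ 2 * (M ^ 2 * x ^ 2) := by rw [this]
      _ = _ := by ring
  have h2 : 0 < M ^ 4 - N ^ 4 := by
    have : N ^ 4 < M ^ 4 := pow_lt_pow_left₀ hM hN.le (by norm_num)
    linarith
  have h3 : N ^ 2 * x ^ 2 - M ^ 2 * y ^ 2 < 0 := by
    have h4 : N ^ 2 * (N ^ 2 * x ^ 2 - M ^ 2 * y ^ 2) < 0 := by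
      rw [h1]; nlinarith [mul_pos h2 hx2]
    by_contra hcon
    push Not at hcon
    have : 0 ≤ N ^ 2 * (N ^ 2 * x ^ 2 - M ^ 2 * y ^ 2) := mul_nonneg (by positivity) hcon
    linarith
  have e : 4 * κ * ((M * x + N * y) * (N * x - M * y) * (N * x + M * y)) * x =
      (8 * κ * M * x ^ 2) * (N ^ 2 * x ^ 2 - M ^ 2 * y ^ 2) := by
    rw [e1]; ring
  rw [e]
  exact mul_neg_of_pos_of_neg (by positivity) h3

theorem com_one_sign {M N x y κ : ℝ} (hN : 0 < N) (hM : N < M) (hκ : 0 < κ) (hy : y ≠ 0)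
    (h : N * x + M * y = 0) :
    4 * κ * ((M * x - N * y) * (M * x + N * y) * (N * x - M * y)) * y < 0 := by
  have := com_zero_sign (x := y) (y := -x) hN hM hκ hy (by linarith)
  nlinarith

theorem heron {X Y Z : ℝ} (hX : 0 < X) (hY : 0 < Y) (hZ : 0 < Z)
    (h : 0 < (X + Y + Z) * ((-X + Y + Z) * (X - Y + Z) * (X + Y - Z))) :
    X < Y + Z ∧ Y < Z + X ∧ Z < X + Y := by
  have hs : 0 < X + Y + Z := by positivity
  have h' : 0 < (-X + Y + Z) * (X - Y + Z) * (X + Y - Z) := by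
    by_contra hcon
    push Not at hcon
    have := mul_nonpos_of_nonneg_of_nonpos hs.le hcon
    linarith
  refine ⟨?_, ?_, ?_⟩
  · by_contra hcon
    push Not at hcon
    have h1 : 0 < X - Y + Z := by linarith
    have h2 : 0 < X + Y - Z := by linarith
    have h3 := mul_nonneg (mul_nonneg (show 0 ≤ -(-X + Y + Z) by linarith) h1.le) h2.le
    nlinarith
  · by_contra hcon
    push Not at hcon
    have h1 : 0 < -X + Y + Z := by linarith
    have h2 : 0 < X + Y - Z := by linarith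
    have h3 := mul_nonneg (mul_nonneg (show 0 ≤ -(X - Y + Z) by linarith) h1.le) h2.le
    nlinarith
  · by_contra hcon
    push Not at hcon
    have h1 : 0 < -X + Y + Z := by linarith
    have h2 : 0 < X - Y + Z := by linarith
    have h3 := mul_nonneg (mul_nonneg (show 0 ≤ -(X + Y - Z) by linarith) h1.le) h2.le
    nlinarith

theorem heron_abs {x y z : ℝ} (hX : x ≠ 0) (hY : y ≠ 0) (hZ : z ≠ 0)
    (h : 0 < (x + y + z) * ((-x + y + z) * (x - y + z) * (x + y - z))) :
    |x| < |y| + |z| ∧ |y| < |z| + |x| ∧ |z| < |x| + |y| := by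
  refine heron (abs_pos.mpr hX) (abs_pos.mpr hY) (abs_pos.mpr hZ) ?_
  have e : ∀ X Y Z : ℝ, (X + Y + Z) * ((-X + Y + Z) * (X - Y + Z) * (X + Y - Z)) =
      2 * (X ^ 2 * Y ^ 2 + Y ^ 2 * Z ^ 2 + Z ^ 2 * X ^ 2) -
        ((X ^ 2) ^ 2 + (Y ^ 2) ^ 2 + (Z ^ 2) ^ 2) := by intro X Y Z; ring
  rw [e, sq_abs, sq_abs, sq_abs, ← e]
  exact h

theorem sg_sum {x y z : ℝ} (hX : x ≠ 0) (hY : y ≠ 0) (hZ : z ≠ 0)
    (h : |x| < |y| + |z| ∧ |y| < |z| + |x| ∧ |z| < |x| + |y|) :
    sg (x + y + z) = sg x * sg y + sg y * sg z + sg z * sg x := by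
  obtain ⟨h1, h2, h3⟩ := h
  rcases lt_or_gt_of_ne hX with hx | hx <;> rcases lt_or_gt_of_ne hY with hy | hy <;>
    rcases lt_or_gt_of_ne hZ with hz | hz <;>
    simp only [abs_of_neg, abs_of_pos, hx, hy, hz] at h1 h2 h3
  · rw [sg_neg hx, sg_neg hy, sg_neg hz, sg_neg (by linarith)]; decide
  · rw [sg_neg hx, sg_neg hy, sg_pos hz, sg_neg (by linarith)]; decide
  · rw [sg_neg hx, sg_pos hy, sg_neg hz, sg_neg (by linarith)]; decide
  · rw [sg_neg hx, sg_pos hy, sg_pos hz, sg_pos (by linarith)]; decide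
  · rw [sg_pos hx, sg_neg hy, sg_neg hz, sg_neg (by linarith)]; decide
  · rw [sg_pos hx, sg_neg hy, sg_pos hz, sg_pos (by linarith)]; decide
  · rw [sg_pos hx, sg_pos hy, sg_neg hz, sg_pos (by linarith)]; decide
  · rw [sg_pos hx, sg_pos hy, sg_pos hz, sg_pos (by linarith)]; decide

theorem kap_pos {m n : ℤ} (hn : 0 < n) (hmn : n < m) : 0 < (kap m n : ℝ) := by
  have h1 : (0 : ℝ) < n := by exact_mod_cast hn
  have h2 : (n : ℝ) < m := by exact_mod_cast hmn
  have h3 : (0 : ℝ) < m := h1.trans h2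
  unfold kap
  positivity

/-- the local vector at a real point in terms of the signs of the coordinates -/
theorem real_vec {m n d : ℤ} (hn : 0 < n) (hmn : n < m) (hd : d < 0) (P : Pt m n d ℝ) :
    LocVec P (rvec (sg P.x) (sg P.y) (sg P.z)) := by
  have hN : (0 : ℝ) < n := by exact_mod_cast hn
  have hM : (n : ℝ) < m := by exact_mod_cast hmn
  have hM0 : (0 : ℝ) < m := hN.trans hM
  have hd' : (d : ℝ) < 0 := by exact_mod_cast hd
  have hκ := kap_pos hn hmn
  have hF : F m n P.x P.y P.z ≤ 0 := by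
    by_contra hcon
    push Not at hcon
    have h1 := mul_neg_of_neg_of_pos hd' hcon
    rw [← P.eq] at h1
    nlinarith [sq_nonneg P.w]
  have pair : ∀ i : Fin 7, lin m n P.x P.y P.z i * com m n P.x P.y P.z i ≤ 0 := by
    intro i
    have h1 := basic m n P.x P.y P.z i
    nlinarith [mul_nonneg (sq_nonneg (scl m n i : ℝ)) (neg_nonneg.mpr hF),
      sq_nonneg (qua m n P.x P.y P.z i)]
  have p0 := pair 0
  have p2 := pair 2
  have p4 := pair 4
  have conv : ∀ u v : ℝ, ((m : ℝ) * u - n * v) * (4 * kap m n * ((m * u + n * v) *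
      (n * u - m * v) * (n * u + m * v))) ≤ 0 →
      ((m : ℝ) ^ 2 * u ^ 2 - (n : ℝ) ^ 2 * v ^ 2) * ((n : ℝ) ^ 2 * u ^ 2 - (m : ℝ) ^ 2 * v ^ 2) ≤ 0 := by
    intro u v h
    by_contra hcon
    push Not at hcon
    have h1 := mul_pos (show (0 : ℝ) < 4 * kap m n by positivity) hcon
    nlinarith
  obtain ⟨a1, a2⟩ := two_abs hN hM (conv P.x P.y (by simpa [lin, com] using p0))
  obtain ⟨b1, b2⟩ := two_abs hN hM (conv P.y P.z (by simpa [lin, com] using p2))
  obtain ⟨c1, c2⟩ := two_abs hN hM (conv P.z P.x (by simpa [lin, com] using p4))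
  have zero : ∀ u v : ℝ, (n : ℝ) * |v| ≤ m * |u| → u = 0 → v = 0 := by
    intro u v h hu
    rw [hu, abs_zero, mul_zero] at h
    have : |v| ≤ 0 := by
      by_contra hcon
      push Not at hcon
      have := mul_pos hN hcon
      linarith
    exact abs_eq_zero.mp (le_antisymm this (abs_nonneg _))
  have hx : P.x ≠ 0 := fun h => P.ne ⟨h, zero _ _ a1 h, zero _ _ c2 h⟩
  have hy : P.y ≠ 0 := fun h => P.ne ⟨zero _ _ a2 h, h, zero _ _ b1 h⟩
  have hz : P.z ≠ 0 := fun h => P.ne ⟨zero _ _ c1 h, zero _ _ b2 h, h⟩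
  have hq : 0 < (P.x + P.y + P.z) * ((-P.x + P.y + P.z) * (P.x - P.y + P.z) *
      (P.x + P.y - P.z)) := by
    have h1 := basic m n P.x P.y P.z 6
    simp [scl, qua, lin, com] at h1
    have h2 : 0 < ((m : ℝ) * n * (P.x ^ 2 + P.y ^ 2 + P.z ^ 2)) ^ 2 := by positivity
    by_contra hcon
    push Not at hcon
    have h3 := mul_nonpos_of_nonneg_of_nonpos hκ.le hcon
    nlinarith
  have htri := heron_abs hx hy hz hq
  have hsum := sg_sum hx hy hz htri
  have hl6 : P.x + P.y + P.z ≠ 0 := left_ne_zero_of_mul hq.ne'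
  have hent : ∀ i, sg (ent P i) = rvec (sg P.x) (sg P.y) (sg P.z) i := by
    have e0 : sg (ent P 0) = sg P.x := sg_ent hd P 0 P.x hx
      (by simpa [lin] using lin_zero_sign hN.le a1)
      (fun h => by simpa [com] using com_zero_sign hN hM hκ hx (by simpa [lin] using h))
    have e1 : sg (ent P 1) = sg P.y := sg_ent hd P 1 P.y hy
      (by simpa [lin] using lin_one_sign hN.le a2)
      (fun h => by simpa [com] using com_one_sign hN hM hκ hy (by simpa [lin] using h))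
    have e2 : sg (ent P 2) = sg P.y := sg_ent hd P 2 P.y hy
      (by simpa [lin] using lin_zero_sign hN.le b1)
      (fun h => by simpa [com] using com_zero_sign hN hM hκ hy (by simpa [lin] using h))
    have e3 : sg (ent P 3) = sg P.z := sg_ent hd P 3 P.z hz
      (by simpa [lin] using lin_one_sign hN.le b2)
      (fun h => by simpa [com] using com_one_sign hN hM hκ hz (by simpa [lin] using h))
    have e4 : sg (ent P 4) = sg P.z := sg_ent hd P 4 P.z hz
      (by simpa [lin] using lin_zero_sign hN.le c1)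
      (fun h => by simpa [com] using com_zero_sign hN hM hκ hz (by simpa [lin] using h))
    have e5 : sg (ent P 5) = sg P.x := sg_ent hd P 5 P.x hx
      (by simpa [lin] using lin_one_sign hN.le c2)
      (fun h => by simpa [com] using com_one_sign hN hM hκ hx (by simpa [lin] using h))
    have e6 : sg (ent P 6) = sg P.x * sg P.y + sg P.y * sg P.z + sg P.z * sg P.x := by
      rw [← hsum]
      congr 1
      unfold ent
      rw [if_pos]
      · simp [lin]
      · simpa [lin] using hl6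
    intro i
    fin_cases i
    · exact e0
    · exact e1
    · exact e2
    · exact e3
    · exact e4
    · exact e5
    · exact e6
  intro T _
  rw [inv_eq_sg hd P T]
  exact Finset.sum_congr rfl (fun i _ => hent i)

end RealPl

open RealPl

theorem real_neg {m n d : ℤ} (hn : 0 < n) (hmn : n < m) (hd : d < 0) (P : Pt m n d ℝ) :
    ∃ a b c : ZMod 2, LocVec P (rvec a b c) :=
  ⟨_, _, _, real_vec hn hmn hd P⟩

theorem real_neg_exists {m n d : ℤ} (hn : 0 < n) (hmn : n < m) (hd : d < 0) (a b c : ZMod 2) :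
    ∃ P : Pt m n d ℝ, LocVec P (rvec a b c) := by
  have hd' : (d : ℝ) < 0 := by exact_mod_cast hd
  have key : ∀ a : ZMod 2, ∃ t : ℝ, t ^ 2 = 1 ∧ sg t = a := by
    intro a
    have ha : a = 0 ∨ a = 1 := by
      fin_cases a
      · exact Or.inl rfl
      · exact Or.inr rfl
    rcases ha with rfl | rfl
    · exact ⟨1, by norm_num, sg_pos one_pos⟩
    · exact ⟨-1, by norm_num, sg_neg (by norm_num)⟩
  obtain ⟨x, hx, hxa⟩ := key a
  obtain ⟨y, hy, hyb⟩ := key b
  obtain ⟨z, hz, hzc⟩ := key c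
  have hF : F m n x y z = -(3 * ((m : ℝ) ^ 2 - (n : ℝ) ^ 2) ^ 2) := by
    unfold F
    have e1 : x ^ 4 = 1 := by rw [show (4 : ℕ) = 2 * 2 from rfl, pow_mul, hx, one_pow]
    have e2 : y ^ 4 = 1 := by rw [show (4 : ℕ) = 2 * 2 from rfl, pow_mul, hy, one_pow]
    have e3 : z ^ 4 = 1 := by rw [show (4 : ℕ) = 2 * 2 from rfl, pow_mul, hz, one_pow]
    rw [e1, e2, e3, hx, hy, hz]
    ring
  have hF0 : F m n x y z ≤ 0 := by rw [hF]; nlinarith [sq_nonneg ((m : ℝ) ^ 2 - (n : ℝ) ^ 2)]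
  refine ⟨⟨x, y, z, Real.sqrt ((d : ℝ) * F m n x y z), ?_, ?_⟩, ?_⟩
  · rintro ⟨h, -, -⟩
    rw [h] at hx
    norm_num at hx
  · exact Real.sq_sqrt (mul_nonneg_of_nonpos_of_nonpos hd'.le hF0)
  · have := real_vec hn hmn hd (⟨x, y, z, Real.sqrt ((d : ℝ) * F m n x y z), by
      rintro ⟨h, -, -⟩
      rw [h] at hx
      norm_num at hx, Real.sq_sqrt (mul_nonneg_of_nonpos_of_nonpos hd'.le hF0)⟩ : Pt m n d ℝ)
    simp only [hxa, hyb, hzc] at this
    exact this

end Pool.Agent.Helper8.DP2
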